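import Pool.Agent.Y117.SG.Game

/-!
# Client hits many large sets in Client-Waiter games
-/

set_option autoImplicit false

open Finset

namespace Pool.Agent.Y117.SG

variable {C A : Type*} [DecidableEq C] [Fintype A]

/-- If Waiter can force that some set `F a` is not hit, then the potential is at least one. -/
theorem cw_abs (F : A → Finset C) (q : ℕ) (goal : Finset C → Prop)
    (hgoal : ∀ Y, goal Y → ∃ a, ∀ c ∈ Y, c ∉ F a) {X Y : Finset C}
    (h : Forces (offerCW q) goal X Y) :
    1 ≤ ∑ a with (∀ c ∈ Y, c ∉ F a), ((q : ℝ) / ((q : ℝ) + 1)) ^ (X ∩ F a).card := by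
  classical
  set x : ℝ := (q : ℝ) / ((q : ℝ) + 1) with hx
  have hq1 : (0 : ℝ) < (q : ℝ) + 1 := by positivity
  have hx0 : 0 ≤ x := by positivity
  induction h with
  | stop X Y hno hg =>
    have hX : X = ∅ := by
      by_contra hne
      obtain ⟨c, hc⟩ := Finset.nonempty_iff_ne_empty.2 hne
      exact hno {c} ⟨by simpa using hc, by simp, by simp⟩
    obtain ⟨a, ha⟩ := hgoal Y hg
    subst hX
    simp only [Finset.empty_inter, Finset.card_empty, pow_zero]
    rw [Finset.sum_const, nsmul_eq_mul, mul_one]
    have : 0 < (univ.filter (fun a => ∀ c ∈ Y, c ∉ F a)).card :=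
      Finset.card_pos.2 ⟨a, by simpa using ha⟩
    exact_mod_cast this
  | round X Y B hB _ ih =>
    obtain ⟨hBX, hB1, hBq⟩ := hB
    have hsum := Finset.card_nsmul_le_sum B (fun c => ∑ a with (∀ c' ∈ insert c Y, c' ∉ F a),
      x ^ ((X \ B) ∩ F a).card) 1 (fun c hc => ih c hc)
    rw [nsmul_eq_mul, mul_one] at hsum
    have hBpos : (0 : ℝ) < B.card := by exact_mod_cast hB1
    have hkey : ∑ c ∈ B, ∑ a with (∀ c' ∈ insert c Y, c' ∉ F a), x ^ ((X \ B) ∩ F a).card ≤
        B.card * ∑ a with (∀ c ∈ Y, c ∉ F a), x ^ (X ∩ F a).card := by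
      simp only [Finset.sum_filter]
      rw [Finset.sum_comm, Finset.mul_sum]
      apply Finset.sum_le_sum
      intro a _
      by_cases ha : ∀ c ∈ Y, c ∉ F a
      · rw [if_pos ha]
        have h1 : ∀ c ∈ B, (if ∀ c' ∈ insert c Y, c' ∉ F a then x ^ ((X \ B) ∩ F a).card else 0) =
            (if c ∉ F a then x ^ ((X \ B) ∩ F a).card else 0) := by
          intro c _
          simp only [Finset.forall_mem_insert]
          by_cases hc : c ∉ F a
          · rw [if_pos ⟨hc, ha⟩, if_pos hc]
          · rw [if_neg (fun h => hc h.1), if_neg hc]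
        rw [Finset.sum_congr rfl h1, ← Finset.sum_filter, Finset.sum_const, nsmul_eq_mul]
        set j := (B ∩ F a).card with hj
        have h2 : (B.filter (fun c => c ∉ F a)).card + j = B.card := by
          have := Finset.card_filter_add_card_filter_not (s := B) (fun c => c ∈ F a)
          have h3 : B.filter (fun c => c ∈ F a) = B ∩ F a := by
            ext c; simp
          rw [h3] at this
          omega
        have h2R : ((B.filter (fun c => c ∉ F a)).card : ℝ) = B.card - j := by
          rw [← h2]; push_cast; ring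
        have h3 : (X ∩ F a).card = ((X \ B) ∩ F a).card + j := by
          have h4 : (X \ B) ∩ F a = (X ∩ F a) \ (B ∩ F a) := by
            ext c
            simp only [mem_inter, mem_sdiff]
            tauto
          rw [h4, Finset.card_sdiff_of_subset (Finset.inter_subset_inter_right hBX)]
          have := Finset.card_le_card (Finset.inter_subset_inter_right (u := F a) hBX)
          omega
        rw [h2R, h3, pow_add]
        have h5 : (B.card : ℝ) - j ≤ B.card * x ^ j := by
          have h6 : 1 + (j : ℝ) * (-(1 / ((q : ℝ) + 1))) ≤ (1 + (-(1 / ((q : ℝ) + 1)))) ^ j := by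
            apply one_add_mul_le_pow
            have : 1 / ((q : ℝ) + 1) ≤ 1 := by
              rw [div_le_one hq1]
              have : (0 : ℝ) ≤ q := Nat.cast_nonneg q
              linarith
            linarith
          have h7 : 1 + (-(1 / ((q : ℝ) + 1))) = x := by rw [hx]; field_simp; ring
          rw [h7] at h6
          have h8 : (B.card : ℝ) ≤ (q : ℝ) + 1 := by exact_mod_cast hBq
          have h9 : (B.card : ℝ) * (j / ((q : ℝ) + 1)) ≤ j := by
            rw [← mul_div_assoc, div_le_iff₀ hq1, mul_comm]
            exact mul_le_mul_of_nonneg_left h8 (Nat.cast_nonneg j)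
          have h10 := mul_le_mul_of_nonneg_left h6 hBpos.le
          have h11 : (B.card : ℝ) * (1 + (j : ℝ) * (-(1 / ((q : ℝ) + 1)))) =
              B.card - B.card * (j / ((q : ℝ) + 1)) := by ring
          rw [h11] at h10
          linarith
        calc ((B.card : ℝ) - j) * x ^ ((X \ B) ∩ F a).card
            ≤ (B.card * x ^ j) * x ^ ((X \ B) ∩ F a).card :=
              mul_le_mul_of_nonneg_right h5 (by positivity)
          _ = _ := by ring
      · rw [if_neg ha, mul_zero]
        apply le_of_eq
        apply Finset.sum_eq_zero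
        intro c _
        rw [if_neg]
        intro h
        exact ha fun c' hc' => h c' (Finset.mem_insert_of_mem hc')
    have h1 : (B.card : ℝ) * 1 ≤
        B.card * ∑ a with (∀ c ∈ Y, c ∉ F a), x ^ (X ∩ F a).card := by
      rw [mul_one]; exact hsum.trans hkey
    exact le_of_mul_le_mul_left h1 hBpos

/-- The potential at the start. -/
theorem cw_abs_empty (F : A → Finset C) (q : ℕ) (goal : Finset C → Prop)
    (hgoal : ∀ Y, goal Y → ∃ a, ∀ c ∈ Y, c ∉ F a) {X : Finset C}
    (h : Forces (offerCW q) goal X ∅) :
    1 ≤ ∑ a, ((q : ℝ) / ((q : ℝ) + 1)) ^ (X ∩ F a).card := by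
  refine (cw_abs F q goal hgoal h).trans ?_
  exact Finset.sum_le_sum_of_subset_of_nonneg (Finset.filter_subset _ _)
    (fun a _ _ => by positivity)

end Pool.Agent.Y117.SG
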