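import Pool.Agent.Y117.SG.Game

/-!
# Counting clauses
-/

set_option autoImplicit false

open Finset Filter

namespace Pool.Agent.Y117.SG

/-- The clauses violated by the assignment `α`. -/
def viol {n : ℕ} (α : Fin n → Bool) : Finset (Clause n) :=
  univ.filter (fun c => ∀ l ∈ c, α l.1 ≠ l.2)

lemma sat_iff {n : ℕ} (Y : Finset (Clause n)) : Sat Y ↔ ∃ α : Fin n → Bool, ∀ c ∈ Y, c ∉ viol α := by
  unfold Sat viol
  constructor
  · rintro ⟨α, h⟩
    refine ⟨α, fun c hc => ?_⟩
    obtain ⟨l, hl, h1⟩ := h c hc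
    simp only [mem_filter, mem_univ, true_and]
    intro h2
    exact h2 l hl h1
  · rintro ⟨α, h⟩
    refine ⟨α, fun c hc => ?_⟩
    have := h c hc
    simp only [mem_filter, mem_univ, true_and] at this
    by_contra hcon
    apply this
    intro l hl h1
    exact hcon ⟨l, hl, h1⟩

lemma le_card_viol {n : ℕ} (k : ℕ) (α : Fin n → Bool) :
    n.choose k ≤ (board n k ∩ viol α).card := by
  classical
  have h1 : (powersetCard k (univ : Finset (Fin n))).card = n.choose k := by
    rw [Finset.card_powersetCard]; simp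
  rw [← h1]
  apply Finset.card_le_card_of_injOn (fun K => K.image (fun i => (i, !α i)))
  · intro K hK
    have hK' : K.card = k := (Finset.mem_powersetCard.1 hK).2
    simp only [board, viol, coe_inter, coe_filter, mem_univ, true_and, Set.mem_inter_iff,
      Set.mem_ofPred_eq]
    have hinj : Function.Injective (fun i : Fin n => (i, !α i)) := fun i j h => (Prod.ext_iff.1 h).1
    refine ⟨⟨by rw [Finset.card_image_of_injective _ hinj]; exact hK', ?_⟩, ?_⟩
    · intro l hl l' hl' h
      obtain ⟨i, _, rfl⟩ := Finset.mem_image.1 hl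
      obtain ⟨j, _, rfl⟩ := Finset.mem_image.1 hl'
      simp only at h
      rw [h]
    · intro l hl
      obtain ⟨i, _, rfl⟩ := Finset.mem_image.1 hl
      simp
  · intro K _ K' _ h
    have h2 : (K.image (fun i : Fin n => (i, !α i))).image Prod.fst = K := by
      rw [Finset.image_image]; simp [Function.comp_def]
    have h3 : (K'.image (fun i : Fin n => (i, !α i))).image Prod.fst = K' := by
      rw [Finset.image_image]; simp [Function.comp_def]
    rw [← h2, ← h3]
    exact congrArg (Finset.image Prod.fst) h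

lemma card_board_le (n k : ℕ) : (board n k).card ≤ 2 ^ k * n.choose k := by
  classical
  have h1 : ((powersetCard k (univ : Finset (Fin n))).sigma (fun K => K.powerset)).card =
      2 ^ k * n.choose k := by
    rw [Finset.card_sigma]
    rw [Finset.sum_congr rfl (fun K hK => by
      rw [Finset.card_powerset, (Finset.mem_powersetCard.1 hK).2])]
    rw [Finset.sum_const, Finset.card_powersetCard]
    simp [mul_comm]
  rw [← h1]
  apply Finset.card_le_card_of_injOn (fun c : Clause n =>
    (⟨c.image Prod.fst, univ.filter (fun i => (i, true) ∈ c)⟩ : (_ : Finset (Fin n)) × Finset (Fin n)))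
  · intro c hc
    simp only [board, coe_filter, mem_univ, true_and, Set.mem_ofPred_eq] at hc
    simp only [mem_coe, mem_sigma, mem_powersetCard, mem_powerset]
    refine ⟨⟨Finset.subset_univ _, ?_⟩, ?_⟩
    · rw [Finset.card_image_of_injOn]
      · exact hc.1
      · intro l hl l' hl' h
        exact hc.2 l hl l' hl' h
    · intro i hi
      rw [mem_filter] at hi
      exact Finset.mem_image.2 ⟨(i, true), hi.2, rfl⟩
  · intro c hc c' hc' h
    simp only [board, coe_filter, mem_univ, true_and, Set.mem_ofPred_eq] at hc hc'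
    have h2 : c.image Prod.fst = c'.image Prod.fst := (Sigma.ext_iff.1 h).1
    have h3 : univ.filter (fun i => (i, true) ∈ c) = univ.filter (fun i => (i, true) ∈ c') :=
      eq_of_heq (Sigma.ext_iff.1 h).2
    have key : ∀ d e : Clause n, (∀ l ∈ d, ∀ l' ∈ d, l.1 = l'.1 → l = l') →
        d.image Prod.fst = e.image Prod.fst →
        univ.filter (fun i => (i, true) ∈ d) = univ.filter (fun i => (i, true) ∈ e) →
        d ⊆ e := by
      intro d e hd h4 h5 l hl
      have h6 : ∀ i, (i, true) ∈ d ↔ (i, true) ∈ e := by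
        intro i
        have := congrArg (fun s => i ∈ s) h5
        simpa using this
      obtain ⟨i, b⟩ := l
      cases b with
      | true => exact (h6 i).1 hl
      | false =>
        have h7 : i ∈ e.image Prod.fst := h4 ▸ Finset.mem_image.2 ⟨(i, false), hl, rfl⟩
        obtain ⟨⟨j, b'⟩, hj, rfl⟩ := Finset.mem_image.1 h7
        cases b' with
        | false => exact hj
        | true =>
          exfalso
          have h8 := (h6 j).2 hj
          have := hd _ hl _ h8 rfl
          simp at this
    exact Finset.Subset.antisymm (key c c' hc.2 h2 h3) (key c' c hc'.2 h2.symm h3.symm)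

/-- `C(n, k)` grows faster than `n ^ j` for `j < k`. -/
lemma choose_large {j k : ℕ} (hjk : j < k) (R : ℝ) :
    ∀ᶠ n : ℕ in atTop, R * (n : ℝ) ^ j ≤ (n.choose k : ℝ) := by
  have hk : (0 : ℝ) < (Nat.factorial k : ℝ) := by exact_mod_cast Nat.factorial_pos k
  filter_upwards [eventually_ge_atTop (2 * k + 1), eventually_ge_atTop ⌈|R| * 2 ^ k * (Nat.factorial k : ℝ)⌉₊]
    with n hn1 hn2
  have hn0 : (1 : ℝ) ≤ n := by exact_mod_cast (by omega : 1 ≤ n)
  have h1 : ((n + 1 - k : ℕ) ^ k : ℝ) / (Nat.factorial k : ℝ) ≤ n.choose k := Nat.pow_le_choose k n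
  have h2 : (n : ℝ) / 2 ≤ ((n + 1 - k : ℕ) : ℝ) := by
    have : n ≤ 2 * (n + 1 - k) := by omega
    have h3 : (n : ℝ) ≤ 2 * ((n + 1 - k : ℕ) : ℝ) := by exact_mod_cast this
    linarith
  have h3 : ((n : ℝ) / 2) ^ k / (Nat.factorial k : ℝ) ≤ n.choose k := by
    refine le_trans ?_ h1
    apply div_le_div_of_nonneg_right _ hk.le
    exact pow_le_pow_left₀ (by positivity) h2 k
  refine le_trans ?_ h3
  rw [le_div_iff₀ hk, div_pow, le_div_iff₀ (by positivity)]
  have h4 : |R| * 2 ^ k * (Nat.factorial k : ℝ) ≤ n := (Nat.le_ceil _).trans (by exact_mod_cast hn2)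
  calc R * (n : ℝ) ^ j * (Nat.factorial k : ℝ) * 2 ^ k
      ≤ |R| * (n : ℝ) ^ j * (Nat.factorial k : ℝ) * 2 ^ k := by
        have := le_abs_self R
        gcongr
    _ = (|R| * 2 ^ k * (Nat.factorial k : ℝ)) * (n : ℝ) ^ j := by ring
    _ ≤ n * (n : ℝ) ^ j := mul_le_mul_of_nonneg_right h4 (by positivity)
    _ = (n : ℝ) ^ (j + 1) := by rw [pow_succ]; ring
    _ ≤ (n : ℝ) ^ k := pow_le_pow_right₀ hn0 hjk

end Pool.Agent.Y117.SG
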