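import Mathlib

/-!
# The extremal set of clauses

Among the nonempty subsets `D` of `X` we maximise `(∑ W (exp θ_D - 1)) ^ N |D|`, where `θ_D a` is
the density of `F a` in `D`. In the maximiser no element has a small weight.
-/

set_option autoImplicit false

open Finset

namespace Pool.Agent.Y117.SG

variable {C A : Type*} [DecidableEq C]

/-- The density of `F a` in `D`. -/
noncomputable def dens (F : A → Finset C) (D : Finset C) (a : A) : ℝ :=
  ((D ∩ F a).card : ℝ) / D.card

lemma dens_nonneg (F : A → Finset C) (D : Finset C) (a : A) : 0 ≤ dens F D a := by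
  unfold dens; positivity

lemma dens_le_one (F : A → Finset C) (D : Finset C) (a : A) : dens F D a ≤ 1 := by
  unfold dens
  apply div_le_one_of_le₀ _ (by positivity)
  exact_mod_cast Finset.card_le_card Finset.inter_subset_left

lemma exp_bound {t : ℝ} (h0 : 0 ≤ t) (h1 : t ≤ 1) : Real.exp t - 1 ≤ 2 * t := by
  have h := Real.abs_exp_sub_one_sub_id_le (x := t) (by rw [abs_of_nonneg h0]; exact h1)
  have h2 := (abs_le.1 h).2
  nlinarith

lemma exp_conv (t : ℝ) : Real.exp t - 1 ≤ t * Real.exp t := by
  have h := Real.add_one_le_exp (-t)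
  have h2 := mul_le_mul_of_nonneg_right h (Real.exp_pos t).le
  rw [← Real.exp_add] at h2
  simp only [neg_add_cancel, Real.exp_zero] at h2
  linarith

theorem extremal (X : Finset C) (S : Finset A) (F : A → Finset C) (W : A → ℝ)
    (hW : ∀ a ∈ S, 0 ≤ W a) (hS : 0 < ∑ a ∈ S, W a) (hX : X.Nonempty) (γ : ℝ) (hγ : 0 < γ)
    (hθ : ∀ a ∈ S, γ ≤ dens F X a) (N : ℕ) (ε : ℝ) (hε : 0 < ε) (hN : 1 ≤ N * ε) :
    ∃ D ⊆ X, D.Nonempty ∧ (γ / 2) ^ N * X.card ≤ D.card ∧
      (2 ≤ D.card → ∀ c ∈ D, (1 - ε) * ∑ a ∈ S, W a * (dens F D a * Real.exp (dens F D a)) ≤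
        ∑ a ∈ S with c ∈ F a, W a * Real.exp (dens F D a)) := by
  classical
  let g : Finset C → ℝ := fun D => ∑ a ∈ S, W a * (Real.exp (dens F D a) - 1)
  let J : Finset C → ℝ := fun D => g D ^ N * D.card
  have hg0 : ∀ D, 0 ≤ g D := by
    intro D
    apply Finset.sum_nonneg
    intro a ha
    apply mul_nonneg (hW a ha)
    have := Real.add_one_le_exp (dens F D a)
    have := dens_nonneg F D a
    linarith
  have hg2 : ∀ D, g D ≤ 2 * ∑ a ∈ S, W a := by
    intro D
    simp only [g]
    rw [Finset.mul_sum]
    apply Finset.sum_le_sum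
    intro a ha
    have h1 := exp_bound (dens_nonneg F D a) (dens_le_one F D a)
    have h2 := dens_le_one F D a
    have := hW a ha
    nlinarith
  have hgX : γ * ∑ a ∈ S, W a ≤ g X := by
    simp only [g]
    rw [Finset.mul_sum]
    apply Finset.sum_le_sum
    intro a ha
    have h1 := Real.add_one_le_exp (dens F X a)
    have h2 := hθ a ha
    have := hW a ha
    nlinarith
  obtain ⟨D, hD, hmax⟩ := Finset.exists_max_image (X.powerset.filter (·.Nonempty)) J
    ⟨X, by simp [hX]⟩
  simp only [mem_filter, mem_powerset] at hD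
  have hmaxX : J X ≤ J D := hmax X (by simp [hX])
  have hPhi : (0 : ℝ) < ∑ a ∈ S, W a := hS
  have hXc : (0 : ℝ) < X.card := by exact_mod_cast hX.card_pos
  have hDc : (0 : ℝ) < D.card := by exact_mod_cast hD.2.card_pos
  have hJX : 0 < J X := by
    have : 0 < g X := lt_of_lt_of_le (by positivity) hgX
    positivity
  refine ⟨D, hD.1, hD.2, ?_, ?_⟩
  · have h1 : (γ * ∑ a ∈ S, W a) ^ N * X.card ≤ (2 * ∑ a ∈ S, W a) ^ N * D.card := by
      calc (γ * ∑ a ∈ S, W a) ^ N * X.card ≤ g X ^ N * X.card := by
            apply mul_le_mul_of_nonneg_right _ hXc.le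
            exact pow_le_pow_left₀ (by positivity) hgX N
        _ ≤ g D ^ N * D.card := hmaxX
        _ ≤ _ := by
            apply mul_le_mul_of_nonneg_right _ hDc.le
            exact pow_le_pow_left₀ (hg0 D) (hg2 D) N
    have h2 : (γ / 2) ^ N * X.card * (2 * ∑ a ∈ S, W a) ^ N =
        (γ * ∑ a ∈ S, W a) ^ N * X.card := by
      rw [mul_right_comm, ← mul_pow]
      congr 2
      ring
    have h3 : (0 : ℝ) < (2 * ∑ a ∈ S, W a) ^ N := by positivity
    rw [← h2, mul_comm ((2 * ∑ a ∈ S, W a) ^ N) (D.card : ℝ)] at h1
    exact le_of_mul_le_mul_right h1 h3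
  · intro hD2 c hc
    by_contra hcon
    rw [not_le] at hcon
    set m : ℝ := (D.card : ℝ) with hm
    have hm2 : (2 : ℝ) ≤ m := by rw [hm]; exact_mod_cast hD2
    set U : ℝ := ∑ a ∈ S, W a * (dens F D a * Real.exp (dens F D a)) with hU
    have hD'c : ((D.erase c).card : ℝ) = m - 1 := by
      rw [Finset.card_erase_of_mem hc, Nat.cast_sub (by omega), hm]; simp
    have hD'ne : (D.erase c).Nonempty := by
      rw [← Finset.card_pos, Finset.card_erase_of_mem hc]; omega
    -- the new densities
    have hdens : ∀ a, dens F (D.erase c) a =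
        dens F D a + (dens F D a - (if c ∈ F a then 1 else 0)) / (m - 1) := by
      intro a
      unfold dens
      rw [hD'c]
      have hm1 : m - 1 ≠ 0 := by linarith
      have hm0 : m ≠ 0 := by linarith
      have hcard : (((D.erase c) ∩ F a).card : ℝ) = ((D ∩ F a).card : ℝ) -
          (if c ∈ F a then 1 else 0) := by
        split_ifs with h
        · have h1 : (D.erase c) ∩ F a = (D ∩ F a).erase c := by
            ext x; simp only [mem_inter, mem_erase]; tauto
          rw [h1, Finset.card_erase_of_mem (by simp [hc, h]), Nat.cast_sub]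
          · simp
          · exact Finset.card_pos.2 ⟨c, by simp [hc, h]⟩
        · have h1 : (D.erase c) ∩ F a = D ∩ F a := by
            ext x; simp only [mem_inter, mem_erase]
            constructor
            · rintro ⟨⟨_, h1⟩, h2⟩; exact ⟨h1, h2⟩
            · rintro ⟨h1, h2⟩; exact ⟨⟨fun h3 => h (h3 ▸ h2), h1⟩, h2⟩
          rw [h1]; simp
      rw [hcard, ← hm]
      field_simp
      ring
    have hgD' : g D + ε * U / (m - 1) < g (D.erase c) := by
      have h1 : ∀ a ∈ S, W a * (Real.exp (dens F D a) - 1) +
          W a * (Real.exp (dens F D a) * ((dens F D a - (if c ∈ F a then 1 else 0)) / (m - 1))) ≤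
          W a * (Real.exp (dens F (D.erase c) a) - 1) := by
        intro a ha
        rw [← mul_add]
        apply mul_le_mul_of_nonneg_left _ (hW a ha)
        rw [hdens a, Real.exp_add]
        have h2 := Real.add_one_le_exp ((dens F D a - (if c ∈ F a then 1 else 0)) / (m - 1))
        have h3 := mul_le_mul_of_nonneg_left h2 (Real.exp_pos (dens F D a)).le
        linarith
      have h2 := Finset.sum_le_sum h1
      rw [Finset.sum_add_distrib] at h2
      have h3 : ∑ a ∈ S, W a * (Real.exp (dens F D a) *
          ((dens F D a - (if c ∈ F a then 1 else 0)) / (m - 1))) =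
          (U - ∑ a ∈ S with c ∈ F a, W a * Real.exp (dens F D a)) / (m - 1) := by
        rw [hU, Finset.sum_filter, ← Finset.sum_sub_distrib, Finset.sum_div]
        apply Finset.sum_congr rfl
        intro a _
        split_ifs <;> ring
      rw [h3] at h2
      have hm1 : 0 < m - 1 := by linarith
      have h4 : ε * U / (m - 1) <
          (U - ∑ a ∈ S with c ∈ F a, W a * Real.exp (dens F D a)) / (m - 1) := by
        apply div_lt_div_of_pos_right _ hm1
        linarith
      linarith
    have hUg : g D ≤ U := by
      apply Finset.sum_le_sum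
      intro a ha
      exact mul_le_mul_of_nonneg_left (exp_conv _) (hW a ha)
    have hgDpos : 0 < g D := by
      rcases (hg0 D).lt_or_eq with h | h
      · exact h
      · exfalso
        have hJD : J D ≤ 0 := by
          simp only [J]
          rw [← h]
          have hN0 : N ≠ 0 := by
            rintro rfl
            norm_num at hN
          rw [zero_pow hN0]; simp
        linarith
    have hm1 : 0 < m - 1 := by linarith
    have hJ' : J D < J (D.erase c) := by
      simp only [J]
      rw [hD'c, ← hm]
      have h1 : g D * (1 + ε / (m - 1)) < g (D.erase c) := by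
        have : g D * (1 + ε / (m - 1)) ≤ g D + ε * U / (m - 1) := by
          have h5 : g D * (1 + ε / (m - 1)) = g D + ε * g D / (m - 1) := by ring
          rw [h5]
          have : ε * g D / (m - 1) ≤ ε * U / (m - 1) :=
            div_le_div_of_nonneg_right (mul_le_mul_of_nonneg_left hUg hε.le) hm1.le
          linarith
        linarith
      have hN0 : N ≠ 0 := by
        rintro rfl
        norm_num at hN
      have h2 : (g D * (1 + ε / (m - 1))) ^ N < g (D.erase c) ^ N :=
        pow_lt_pow_left₀ h1 (by positivity) hN0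
      have h3 : m ≤ (1 + ε / (m - 1)) ^ N * (m - 1) := by
        have h4 : 1 + (N : ℝ) * (ε / (m - 1)) ≤ (1 + ε / (m - 1)) ^ N :=
          one_add_mul_le_pow (by have : 0 < ε / (m - 1) := by positivity
                                 linarith) N
        have h5 : m ≤ (1 + (N : ℝ) * (ε / (m - 1))) * (m - 1) := by
          have : (1 + (N : ℝ) * (ε / (m - 1))) * (m - 1) = (m - 1) + N * ε := by
            field_simp
          rw [this]; linarith
        exact h5.trans (mul_le_mul_of_nonneg_right h4 hm1.le)
      calc g D ^ N * m ≤ g D ^ N * ((1 + ε / (m - 1)) ^ N * (m - 1)) :=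
            mul_le_mul_of_nonneg_left h3 (by positivity)
        _ = (g D * (1 + ε / (m - 1))) ^ N * (m - 1) := by rw [mul_pow]; ring
        _ < g (D.erase c) ^ N * (m - 1) := mul_lt_mul_of_pos_right h2 hm1
    have := hmax (D.erase c) (by
      simp only [mem_filter, mem_powerset]
      exact ⟨(Finset.erase_subset _ _).trans hD.1, hD'ne⟩)
    linarith

end Pool.Agent.Y117.SG
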