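import Pool.Agent.Y117.SG.WC
import Pool.Agent.Y117.SG.CW
import Pool.Agent.Y117.SG.Cnt

/-!
# The sharp bounds in the `k`-SAT games
-/

set_option autoImplicit false

open Finset Filter

namespace Pool.Agent.Y117.SG

lemma log2_pos : 0 < Real.log 2 := Real.log_pos (by norm_num)

lemma log2_le : Real.log 2 ≤ 1 := by
  have := Real.log_two_lt_d9
  linarith

/-- Waiter wins the Waiter-Client game up to the conjectured threshold. -/
theorem wc_final (k : ℕ) (hk : 3 ≤ k) (ε : ℝ) (hε0 : 0 < ε) (hε1 : ε ≤ 1) :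
    ∀ᶠ n : ℕ in atTop, ∀ q : ℕ, (1 + ε) * (n * q * Real.log 2) ≤ (n.choose k : ℝ) →
      Forces (offerWC q) (fun Y : Finset (Clause n) => ¬ Sat Y) (board n k) ∅ := by
  classical
  have hL := log2_pos
  have hL1 := log2_le
  set γ : ℝ := ε / (8 * 2 ^ k) with hγdef
  have hγ0 : 0 < γ := by positivity
  have h2k : (1 : ℝ) ≤ 2 ^ k := one_le_pow₀ (by norm_num)
  have hγ1 : γ ≤ 1 := by
    rw [hγdef, div_le_one (by positivity)]
    linarith
  have hγk : γ * 2 ^ k = ε / 8 := by rw [hγdef]; field_simp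
  obtain ⟨N, hN⟩ := exists_nat_ge (6 / γ)
  have hN' : 1 ≤ (N : ℝ) * (γ / 6) := by
    rw [div_le_iff₀ hγ0] at hN
    linarith
  set K : ℝ := (4 / γ + 2) / (γ / 2) ^ N with hKdef
  have hK : 4 / γ + 2 ≤ (γ / 2) ^ N * K := by
    rw [hKdef]
    apply le_of_eq
    field_simp
  have hKpos : 0 < K := by positivity
  filter_upwards [choose_large (j := 2) (k := k) (by omega) (256 / γ ^ 2),
    choose_large (j := 1) (k := k) (by omega) (16 / ε),
    eventually_ge_atTop ⌈(K + 1) / (Real.log 2 * (ε / 2))⌉₊, eventually_ge_atTop 1] with n h1 h2 h3 hn1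
  intro q hq
  have hnR : (1 : ℝ) ≤ n := by exact_mod_cast hn1
  have h3' : K + 1 ≤ n * (Real.log 2 * (ε / 2)) := by
    have : (K + 1) / (Real.log 2 * (ε / 2)) ≤ n := (Nat.le_ceil _).trans (by exact_mod_cast h3)
    rwa [div_le_iff₀ (by positivity)] at this
  set c : ℝ := (n.choose k : ℝ) with hc
  set d : ℝ := (1 + ε) * (n * Real.log 2) with hd
  have hd0 : 0 < d := by positivity
  set u : ℝ := c / d with hu
  have hqu : (q : ℝ) ≤ u := by
    rw [hu, le_div_iff₀ hd0, hd]
    linarith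
  have hqf : q ≤ ⌊u⌋₊ := Nat.le_floor hqu
  set q1 : ℕ := ⌊u⌋₊ with hq1
  have hu0 : 0 ≤ u := by positivity
  have hb1 : u < ((q1 + 1 : ℕ) : ℝ) := by push_cast; exact Nat.lt_floor_add_one u
  have hb2 : ((q1 + 1 : ℕ) : ℝ) ≤ u + 1 := by
    push_cast
    have := Nat.floor_le hu0
    linarith
  have hbpos : (0 : ℝ) < ((q1 + 1 : ℕ) : ℝ) := by positivity
  have hmono : ∀ (Y : Finset (Clause n)) (c : Clause n), ¬ Sat Y → ¬ Sat (insert c Y) := by
    intro Y c h h'
    apply h
    obtain ⟨α, hα⟩ := h'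
    exact ⟨α, fun c' hc' => hα c' (Finset.mem_insert_of_mem hc')⟩
  have hmono' : ∀ (Y Y' : Finset (Clause n)), Y ⊆ Y' → ¬ Sat Y → ¬ Sat Y' := by
    intro Y Y' hYY h h'
    apply h
    obtain ⟨α, hα⟩ := h'
    exact ⟨α, fun c' hc' => hα c' (hYY hc')⟩
  apply forces_mono hqf (fun Y : Finset (Clause n) => ¬ Sat Y) hmono hmono' _ _ _
    (Finset.Subset.refl _) (Finset.Subset.refl _)
  have hM : ((univ : Finset (Fin n → Bool)).card : ℝ) = 2 ^ n := by
    rw [Finset.card_univ]; simp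
  have hexp2 : (2 : ℝ) ^ n = Real.exp (n * Real.log 2) := by
    rw [mul_comm, Real.exp_mul, Real.exp_log (by norm_num)]
    simp
  apply wc_abs (A := Fin n → Bool) viol q1 (2 ^ n) γ K hγ0 hγ1 N hN' hK ?_
    (fun Y : Finset (Clause n) => ¬ Sat Y) hmono ?_ (board n k).card (board n k) ∅ univ le_rfl
    hM.le (by simp) ?_
  · -- concentration
    rw [hexp2, ← Real.exp_add, Real.exp_lt_one_iff]
    have h4 : (n : ℝ) * Real.log 2 < (γ / 2) ^ 2 / 32 * ((q1 + 1 : ℕ) : ℝ) := by
      have h5 : (256 / γ ^ 2) * (n : ℝ) ^ 2 / (2 * n) ≤ u := by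
        rw [hu, div_le_div_iff₀ (by positivity) hd0]
        have h6 : d ≤ 2 * n := by
          rw [hd]
          have : (n : ℝ) * Real.log 2 ≤ n * 1 := mul_le_mul_of_nonneg_left hL1 (by positivity)
          nlinarith
        calc 256 / γ ^ 2 * (n : ℝ) ^ 2 * d ≤ 256 / γ ^ 2 * (n : ℝ) ^ 2 * (2 * n) :=
              mul_le_mul_of_nonneg_left h6 (by positivity)
          _ ≤ c * (2 * n) := mul_le_mul_of_nonneg_right h1 (by positivity)
      have h7 : (256 / γ ^ 2) * (n : ℝ) ^ 2 / (2 * n) = 128 * n / γ ^ 2 := by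
        field_simp; ring
      rw [h7] at h5
      have h8 : 128 * n / γ ^ 2 < ((q1 + 1 : ℕ) : ℝ) := lt_of_le_of_lt h5 hb1
      rw [div_lt_iff₀ (by positivity)] at h8
      have h9 : (n : ℝ) * Real.log 2 ≤ n := by
        have : (n : ℝ) * Real.log 2 ≤ n * 1 := mul_le_mul_of_nonneg_left hL1 (by positivity)
        linarith
      have h10 : (γ / 2) ^ 2 / 32 * ((q1 + 1 : ℕ) : ℝ) = ((q1 + 1 : ℕ) : ℝ) * γ ^ 2 / 128 := by ring
      rw [h10, lt_div_iff₀ (by norm_num)]
      linarith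
    linarith
  · intro Y hY hS
    obtain ⟨α, hα⟩ := (sat_iff Y).1 hS
    obtain ⟨c', hc', h⟩ := hY α
    exact hα c' hc' h
  · -- the potential
    set v : ℝ := c / ((q1 + 1 : ℕ) : ℝ) with hv
    have hv0 : 0 ≤ v := by positivity
    have hsum : ∑ a : Fin n → Bool, Real.exp (-(((board n k ∩ viol a).card : ℝ) /
        ((q1 + 1 : ℕ) : ℝ))) ≤ Real.exp (n * Real.log 2) * Real.exp (-v) := by
      rw [← hexp2, ← hM, ← nsmul_eq_mul]
      apply Finset.sum_le_card_nsmul
      intro a _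
      apply Real.exp_le_exp.2
      apply neg_le_neg
      rw [hv]
      apply div_le_div_of_nonneg_right _ hbpos.le
      rw [hc]
      exact_mod_cast le_card_viol k a
    have hboard : γ * (((board n k).card : ℝ) / ((q1 + 1 : ℕ) : ℝ)) ≤ ε / 8 * v := by
      have h4 : ((board n k).card : ℝ) ≤ 2 ^ k * c := by
        rw [hc]; exact_mod_cast card_board_le n k
      calc γ * (((board n k).card : ℝ) / ((q1 + 1 : ℕ) : ℝ))
          ≤ γ * ((2 ^ k * c) / ((q1 + 1 : ℕ) : ℝ)) := by
            apply mul_le_mul_of_nonneg_left _ hγ0.le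
            exact div_le_div_of_nonneg_right h4 hbpos.le
        _ = (γ * 2 ^ k) * v := by rw [hv]; ring
        _ = ε / 8 * v := by rw [hγk]
    have hu8 : 8 / ε ≤ u := by
      rw [hu, le_div_iff₀ hd0]
      have h6 : d ≤ 2 * n := by
        rw [hd]
        have : (n : ℝ) * Real.log 2 ≤ n * 1 := mul_le_mul_of_nonneg_left hL1 (by positivity)
        nlinarith
      calc 8 / ε * d ≤ 8 / ε * (2 * n) := mul_le_mul_of_nonneg_left h6 (by positivity)
        _ = 16 / ε * (n : ℝ) ^ 1 := by ring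
        _ ≤ c := h2
    have hvlow : d * (1 - ε / 8) ≤ v := by
      rw [hv, le_div_iff₀ hbpos]
      have h4 : c = u * d := by rw [hu]; field_simp
      have h5 : (1 - ε / 8) * (u + 1) ≤ u := by
        rw [div_le_iff₀ hε0] at hu8
        nlinarith
      have h6 : 0 ≤ 1 - ε / 8 := by linarith
      calc d * (1 - ε / 8) * ((q1 + 1 : ℕ) : ℝ) ≤ d * (1 - ε / 8) * (u + 1) :=
            mul_le_mul_of_nonneg_left hb2 (by positivity)
        _ = d * ((1 - ε / 8) * (u + 1)) := by ring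
        _ ≤ d * u := mul_le_mul_of_nonneg_left h5 hd0.le
        _ = c := by rw [h4]; ring
    calc (∑ a : Fin n → Bool, Real.exp (-(((board n k ∩ viol a).card : ℝ) /
          ((q1 + 1 : ℕ) : ℝ)))) * Real.exp (γ * (((board n k).card : ℝ) / ((q1 + 1 : ℕ) : ℝ)))
        ≤ (Real.exp (n * Real.log 2) * Real.exp (-v)) * Real.exp (ε / 8 * v) := by
          apply mul_le_mul hsum (Real.exp_le_exp.2 hboard) (Real.exp_pos _).le
          positivity
      _ = Real.exp (n * Real.log 2 - v * (1 - ε / 8)) := by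
          rw [← Real.exp_add, ← Real.exp_add]; congr 1; ring
      _ < Real.exp (-K) := by
          apply Real.exp_lt_exp.2
          have h6 : 0 ≤ 1 - ε / 8 := by linarith
          have h7 : d * (1 - ε / 8) * (1 - ε / 8) ≤ v * (1 - ε / 8) :=
            mul_le_mul_of_nonneg_right hvlow h6
          have h8 : (1 + ε / 2) * (n * Real.log 2) ≤ d * (1 - ε / 8) * (1 - ε / 8) := by
            rw [hd]
            have h9 : (1 + ε / 2) ≤ (1 + ε) * ((1 - ε / 8) * (1 - ε / 8)) := by
              have e1 : 0 ≤ ε * (1 - ε) := mul_nonneg hε0.le (by linarith)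
              have e2 : 0 ≤ ε ^ 2 := by positivity
              have e3 : 0 ≤ ε ^ 3 := by positivity
              have e4 : (1 + ε) * ((1 - ε / 8) * (1 - ε / 8)) =
                  1 + ε / 2 + (1 / 4 * (ε * (1 - ε)) + ε ^ 2 / 64 + ε ^ 3 / 64) := by ring
              rw [e4]
              linarith
            have h10 : 0 ≤ (n : ℝ) * Real.log 2 := by positivity
            calc (1 + ε / 2) * (n * Real.log 2)
                ≤ ((1 + ε) * ((1 - ε / 8) * (1 - ε / 8))) * (n * Real.log 2) :=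
                  mul_le_mul_of_nonneg_right h9 h10
              _ = _ := by ring
          linarith

/-- Client wins the Client-Waiter game up to the conjectured threshold. -/
theorem cw_final (n k q : ℕ) (h : (n : ℝ) * ((q : ℝ) + 1) * Real.log 2 < (n.choose k : ℝ)) :
    ¬ Forces (offerCW q) (Sat (n := n)) (board n k) ∅ := by
  intro hF
  have h1 := cw_abs_empty (A := Fin n → Bool) viol q (Sat (n := n))
    (fun Y hY => (sat_iff Y).1 hY) hF
  have hq1 : (0 : ℝ) < (q : ℝ) + 1 := by positivity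
  set x : ℝ := (q : ℝ) / ((q : ℝ) + 1) with hx
  have hx0 : 0 ≤ x := by positivity
  have hx1 : x ≤ 1 := by rw [hx, div_le_one hq1]; linarith
  have hxe : x ≤ Real.exp (-(1 / ((q : ℝ) + 1))) := by
    have h2 := Real.add_one_le_exp (-(1 / ((q : ℝ) + 1)))
    have h3 : -(1 / ((q : ℝ) + 1)) + 1 = x := by rw [hx]; field_simp; ring
    linarith
  have h2 : (1 : ℝ) ≤ 2 ^ n * x ^ (n.choose k) := by
    have hcard : ((univ : Finset (Fin n → Bool)).card : ℝ) = 2 ^ n := by
      rw [Finset.card_univ]; simp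
    refine h1.trans ?_
    rw [← hcard, ← nsmul_eq_mul]
    apply Finset.sum_le_card_nsmul
    intro a _
    exact pow_le_pow_of_le_one hx0 hx1 (le_card_viol k a)
  have h3 : x ^ (n.choose k) ≤ Real.exp (-((n.choose k : ℝ) / ((q : ℝ) + 1))) := by
    calc x ^ (n.choose k) ≤ (Real.exp (-(1 / ((q : ℝ) + 1)))) ^ (n.choose k) :=
          pow_le_pow_left₀ hx0 hxe _
      _ = _ := by rw [← Real.exp_nat_mul]; congr 1; ring
  have hexp2 : (2 : ℝ) ^ n = Real.exp (n * Real.log 2) := by
    rw [mul_comm, Real.exp_mul, Real.exp_log (by norm_num)]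
    simp
  have h4 : (1 : ℝ) ≤ Real.exp (n * Real.log 2 - (n.choose k : ℝ) / ((q : ℝ) + 1)) := by
    calc (1 : ℝ) ≤ 2 ^ n * x ^ (n.choose k) := h2
      _ ≤ Real.exp (n * Real.log 2) * Real.exp (-((n.choose k : ℝ) / ((q : ℝ) + 1))) := by
          rw [hexp2]
          exact mul_le_mul_of_nonneg_left h3 (Real.exp_pos _).le
      _ = _ := by rw [← Real.exp_add]; congr 1
  rw [Real.one_le_exp_iff] at h4
  have h5 : (n.choose k : ℝ) / ((q : ℝ) + 1) ≤ n * Real.log 2 := by linarith
  rw [div_le_iff₀ hq1] at h5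
  linarith

/-- The ratio for the Waiter-Client game. -/
theorem wc_ratio (k : ℕ) (hk : 3 ≤ k) (ε : ℝ) (hε : 0 < ε) :
    ∀ᶠ n : ℕ in atTop, 1 / (n : ℝ) * (n.choose k : ℝ) * ((bWC n k : ℝ))⁻¹ / Real.log 2 ≤ 1 + ε := by
  have hL := log2_pos
  set e : ℝ := min ε 1 with he
  have he0 : 0 < e := lt_min hε one_pos
  filter_upwards [wc_final k hk e he0 (min_le_right _ _), eventually_ge_atTop 1] with n hn hn1
  have hnR : (1 : ℝ) ≤ n := by exact_mod_cast hn1
  rcases Nat.eq_zero_or_pos (bWC n k) with h0 | h0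
  · rw [h0]; simp; positivity
  · have hne : {q : ℕ | 1 ≤ q ∧ ¬ Forces (offerWC q) (fun Y => ¬ Sat Y) (board n k) ∅}.Nonempty := by
      by_contra hcon
      rw [Set.not_nonempty_iff_eq_empty] at hcon
      unfold bWC at h0
      rw [hcon] at h0
      simp at h0
    have hmem := Nat.sInf_mem hne
    have h1 : ¬ (1 + e) * (n * (bWC n k : ℝ) * Real.log 2) ≤ (n.choose k : ℝ) :=
      fun h => hmem.2 (hn (bWC n k) h)
    rw [not_le] at h1
    have hb : (0 : ℝ) < bWC n k := by exact_mod_cast h0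
    have h2 : 1 / (n : ℝ) * (n.choose k : ℝ) * ((bWC n k : ℝ))⁻¹ / Real.log 2 =
        (n.choose k : ℝ) / (n * (bWC n k : ℝ) * Real.log 2) := by field_simp
    rw [h2, div_le_iff₀ (by positivity)]
    have h3 : (1 + e) * (n * (bWC n k : ℝ) * Real.log 2) ≤
        (1 + ε) * (n * (bWC n k : ℝ) * Real.log 2) := by
      apply mul_le_mul_of_nonneg_right _ (by positivity)
      have := min_le_left ε 1
      linarith
    linarith

/-- The ratio for the Client-Waiter game. -/
theorem cw_ratio (k : ℕ) (hk : 2 ≤ k) (ε : ℝ) (hε : 0 < ε) :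
    ∀ᶠ n : ℕ in atTop, 1 / (n : ℝ) * (n.choose k : ℝ) * ((bCW n k : ℝ))⁻¹ / Real.log 2 ≤ 1 + ε := by
  have hL := log2_pos
  have hL1 := log2_le
  filter_upwards [choose_large (j := 1) (k := k) (by omega) (1 / ε + 1), eventually_ge_atTop 1]
    with n hn hn1
  have hnR : (1 : ℝ) ≤ n := by exact_mod_cast hn1
  rcases Nat.eq_zero_or_pos (bCW n k) with h0 | h0
  · rw [h0]; simp; positivity
  · have hne : {q : ℕ | 1 ≤ q ∧ Forces (offerCW q) (Sat (n := n)) (board n k) ∅}.Nonempty := by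
      by_contra hcon
      rw [Set.not_nonempty_iff_eq_empty] at hcon
      unfold bCW at h0
      rw [hcon] at h0
      simp at h0
    have hmem := Nat.sInf_mem hne
    have h1 : ¬ (n : ℝ) * ((bCW n k : ℝ) + 1) * Real.log 2 < (n.choose k : ℝ) :=
      fun h => cw_final n k _ h hmem.2
    rw [not_lt] at h1
    have hb : (0 : ℝ) < bCW n k := by exact_mod_cast h0
    have h2 : 1 / (n : ℝ) * (n.choose k : ℝ) * ((bCW n k : ℝ))⁻¹ / Real.log 2 =
        (n.choose k : ℝ) / (n * (bCW n k : ℝ) * Real.log 2) := by field_simp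
    rw [h2, div_le_iff₀ (by positivity)]
    -- the bias is large
    have h3 : 1 / ε ≤ bCW n k := by
      have h4 : (1 / ε + 1) * (n : ℝ) ≤ n * ((bCW n k : ℝ) + 1) := by
        have h5 : (n : ℝ) * ((bCW n k : ℝ) + 1) * Real.log 2 ≤ n * ((bCW n k : ℝ) + 1) * 1 :=
          mul_le_mul_of_nonneg_left hL1 (by positivity)
        simp only [pow_one] at hn
        linarith
      have h6 : 1 / ε + 1 ≤ (bCW n k : ℝ) + 1 := by
        rw [mul_comm] at h4
        exact le_of_mul_le_mul_left h4 (by linarith)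
      linarith
    rw [div_le_iff₀ hε] at h3
    calc (n.choose k : ℝ) ≤ n * ((bCW n k : ℝ) + 1) * Real.log 2 := h1
      _ ≤ n * ((1 + ε) * (bCW n k : ℝ)) * Real.log 2 := by
          apply mul_le_mul_of_nonneg_right _ hL.le
          apply mul_le_mul_of_nonneg_left _ (by positivity)
          linarith
      _ = (1 + ε) * (n * (bCW n k : ℝ) * Real.log 2) := by ring

end Pool.Agent.Y117.SG
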