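import Mathlib

/-!
# Waiter-Client and Client-Waiter games, in particular the `k`-SAT games
-/

set_option autoImplicit false

open Finset

namespace Pool.Agent.Y117.SG

/-- `Forces offer goal X Y`: in the game in which `X` is the set of unclaimed elements of the board
and `Y` is the set of elements claimed by Client so far, Waiter has a strategy which guarantees that
Client's set at the end satisfies `goal`. In each round Waiter offers a set `B` with `offer X B`,
Client claims one element `c` of `B` and Waiter claims the rest of `B`; the game stops when no set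
can be offered any more (then Waiter claims all the remaining elements). -/
inductive Forces {C : Type*} [DecidableEq C] (offer : Finset C → Finset C → Prop)
    (goal : Finset C → Prop) : Finset C → Finset C → Prop
  | stop (X Y : Finset C) : (∀ B, ¬ offer X B) → goal Y → Forces offer goal X Y
  | round (X Y B : Finset C) : offer X B →
      (∀ c ∈ B, Forces offer goal (X \ B) (insert c Y)) → Forces offer goal X Y

/-- The rule of the `(1 : q)` Waiter-Client game: Waiter offers exactly `q + 1` unclaimed
elements. -/
def offerWC {C : Type*} (q : ℕ) (X B : Finset C) : Prop := B ⊆ X ∧ B.card = q + 1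

/-- The rule of the `(1 : q)` Client-Waiter game: Waiter offers between `1` and `q + 1` unclaimed
elements. -/
def offerCW {C : Type*} (q : ℕ) (X B : Finset C) : Prop := B ⊆ X ∧ 1 ≤ B.card ∧ B.card ≤ q + 1

/-- A clause over the Boolean variables `x_i`, `i < n`: a finite set of literals, where the literal
`(i, true)` is `x_i` and the literal `(i, false)` is the negation of `x_i`. -/
abbrev Clause (n : ℕ) := Finset (Fin n × Bool)

/-- The board of the `k`-SAT games: all `k`-clauses, i.e. all sets of `k` literals whose variables
are pairwise distinct. -/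
def board (n k : ℕ) : Finset (Clause n) :=
  univ.filter (fun c => c.card = k ∧ ∀ l ∈ c, ∀ l' ∈ c, l.1 = l'.1 → l = l')

/-- The conjunction of the clauses in `Y` is satisfiable. -/
def Sat {n : ℕ} (Y : Finset (Clause n)) : Prop :=
  ∃ α : Fin n → Bool, ∀ c ∈ Y, ∃ l ∈ c, α l.1 = l.2

/-- The threshold bias of the Waiter-Client `k`-SAT game: the least `q ≥ 1` for which Waiter cannot
force that the conjunction of Client's clauses is unsatisfiable (i.e. Client wins). -/
noncomputable def bWC (n k : ℕ) : ℕ :=
  sInf {q : ℕ | 1 ≤ q ∧ ¬ Forces (offerWC q) (fun Y => ¬ Sat Y) (board n k) ∅}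

/-- The threshold bias of the Client-Waiter `k`-SAT game: the least `q ≥ 1` for which Waiter can
force that the conjunction of Client's clauses is satisfiable (i.e. Waiter wins). -/
noncomputable def bCW (n k : ℕ) : ℕ :=
  sInf {q : ℕ | 1 ≤ q ∧ Forces (offerCW q) Sat (board n k) ∅}

/-- Waiter may play arbitrarily once a monotone goal is reached. -/
lemma any_play {C : Type*} [DecidableEq C] (q : ℕ) (goal : Finset C → Prop)
    (hmono : ∀ Y c, goal Y → goal (insert c Y)) :
    ∀ (m : ℕ) (X Y : Finset C), X.card ≤ m → goal Y → Forces (offerWC q) goal X Y := by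
  intro m
  induction m with
  | zero =>
    intro X Y hX hY
    apply Forces.stop
    · rintro B ⟨h1, h2⟩
      have := Finset.card_le_card h1
      omega
    · exact hY
  | succ m ih =>
    intro X Y hX hY
    by_cases h : q + 1 ≤ X.card
    · obtain ⟨B, hB, hBc⟩ := Finset.exists_subset_card_eq h
      apply Forces.round X Y B ⟨hB, hBc⟩
      intro c _
      apply ih
      · rw [Finset.card_sdiff_of_subset hB]; omega
      · exact hmono _ _ hY
    · apply Forces.stop
      · rintro B ⟨h1, h2⟩
        have := Finset.card_le_card h1
        omega
      · exact hY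

/-- Monotonicity in the bias, in the board and in Client's set. -/
lemma forces_mono {C : Type*} [DecidableEq C] {q q' : ℕ} (hq : q' ≤ q) (goal : Finset C → Prop)
    (hmono : ∀ Y c, goal Y → goal (insert c Y)) (hmono' : ∀ Y Y', Y ⊆ Y' → goal Y → goal Y')
    {X Y : Finset C} (h : Forces (offerWC q) goal X Y) :
    ∀ X' Y' : Finset C, X ⊆ X' → Y ⊆ Y' → Forces (offerWC q') goal X' Y' := by
  induction h with
  | stop X Y _ hg =>
    intro X' Y' _ hY
    exact any_play q' goal hmono X'.card X' Y' le_rfl (hmono' _ _ hY hg)
  | round X Y B hB _ ih =>
    intro X' Y' hX hY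
    obtain ⟨B', hB', hBc'⟩ := Finset.exists_subset_card_eq (show q' + 1 ≤ B.card by
      rw [hB.2]; omega)
    apply Forces.round X' Y' B' ⟨hB'.trans (hB.1.trans hX), hBc'⟩
    intro c hc
    apply ih c (hB' hc)
    · exact Finset.sdiff_subset_sdiff hX hB'
    · exact Finset.insert_subset_insert _ hY

end Pool.Agent.Y117.SG
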