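import Mathlib

/-!
# Choosing a representative batch

From a finite set `C` with at least `s b` elements, `s` large, one can choose `b` distinct elements
such that no member of a small family of sets is over-represented.
-/

set_option autoImplicit false

open Finset

namespace Pool.Agent.Y117.SG

/-- `exp t ≤ 1 + t + t ^ 2` for `0 ≤ t ≤ 1`. -/
lemma exp_quad {t : ℝ} (h0 : 0 ≤ t) (h1 : t ≤ 1) : Real.exp t ≤ 1 + t + t ^ 2 := by
  have h := Real.abs_exp_sub_one_sub_id_le (x := t) (by rw [abs_of_nonneg h0]; exact h1)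
  have h2 := (abs_le.1 h).2
  linarith

/-- Sampling lemma. -/
theorem sample {C A : Type*} [DecidableEq C] (X : Finset C) (S : Finset A) (F : A → Finset C)
    (b s : ℕ) (hb : 0 < b) (hs1 : b * s ≤ X.card) (hs2 : X.card ≤ b * (s + 1)) (δ : ℝ)
    (hδ0 : 0 < δ) (hδ1 : δ ≤ 1) (hs : 2 / δ ≤ s)
    (hN : (S.card : ℝ) * Real.exp (-(δ ^ 2 / 32 * b)) < 1) :
    ∃ B ⊆ X, B.card = b ∧ ∀ a ∈ S,
      ((B ∩ F a).card : ℝ) / b ≤ ((X ∩ F a).card : ℝ) / X.card + δ := by
  classical
  have hs0 : (0 : ℝ) < s := lt_of_lt_of_le (by positivity) hs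
  have hs0' : 0 < s := by exact_mod_cast hs0
  have hbR : (0 : ℝ) < b := by exact_mod_cast hb
  -- an embedding of `Fin b × Fin s` into `X`
  obtain ⟨e⟩ : Nonempty (Fin b × Fin s ↪ X) := by
    apply Function.Embedding.nonempty_of_card_le
    simpa using hs1
  set lam : ℝ := δ / 4 with hlam
  have hl0 : 0 < lam := by positivity
  have hl1 : lam ≤ 1 := by rw [hlam]; linarith
  -- the number of hits
  let N : (Fin b → Fin s) → A → ℝ := fun g a =>
    ∑ i, (if ((e (i, g i) : X) : C) ∈ F a then (1 : ℝ) else 0)
  let mu : A → ℝ := fun a => ((X ∩ F a).card : ℝ) / s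
  have hXpos : (0 : ℝ) < X.card := by
    have : 0 < b * s := Nat.mul_pos hb hs0'
    exact_mod_cast lt_of_lt_of_le this hs1
  have hmu_le : ∀ a, mu a ≤ ((X ∩ F a).card : ℝ) / X.card * (b * (1 + 1 / s)) := by
    intro a
    have h1 : (X.card : ℝ) ≤ b * (s + 1) := by exact_mod_cast hs2
    have h2 : mu a = ((X ∩ F a).card : ℝ) / X.card * (X.card / s) := by
      simp only [mu]; field_simp
    rw [h2]
    apply mul_le_mul_of_nonneg_left _ (by positivity)
    rw [div_le_iff₀ hs0]
    have : (b : ℝ) * (1 + 1 / s) * s = b * (s + 1) := by field_simp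
    rw [this]; exact h1
  -- sum of the hit probabilities
  have hcount : ∀ a, ∑ i : Fin b, (∑ j : Fin s, (if ((e (i, j) : X) : C) ∈ F a then (1 : ℝ) else 0)) ≤
      ((X ∩ F a).card : ℝ) := by
    intro a
    rw [← Fintype.sum_prod_type']
    rw [Finset.sum_boole]
    have : (univ.filter (fun p : Fin b × Fin s => ((e p : X) : C) ∈ F a)).card ≤ (X ∩ F a).card := by
      apply Finset.card_le_card_of_injOn (fun p => ((e p : X) : C))
      · intro p hp
        simp only [coe_filter, mem_univ, true_and, Set.mem_ofPred_eq] at hp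
        simp only [coe_inter, Set.mem_inter_iff, mem_coe]
        exact ⟨(e p).2, hp⟩
      · intro p _ q _ h
        exact e.injective (Subtype.ext h)
    exact_mod_cast this
  -- the exponential moment
  have hmom : ∀ a, ∑ g : Fin b → Fin s, Real.exp (lam * N g a) ≤
      (s : ℝ) ^ b * Real.exp ((lam + lam ^ 2) * mu a) := by
    intro a
    have h1 : ∀ g : Fin b → Fin s, Real.exp (lam * N g a) =
        ∏ i, Real.exp (lam * (if ((e (i, g i) : X) : C) ∈ F a then (1 : ℝ) else 0)) := by
      intro g
      simp only [N]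
      rw [Finset.mul_sum, Real.exp_sum]
    simp_rw [h1]
    have h2 := (Finset.prod_univ_sum (fun _ : Fin b => (univ : Finset (Fin s)))
      (fun i j => Real.exp (lam * (if ((e (i, j) : X) : C) ∈ F a then (1 : ℝ) else 0)))).symm
    rw [Fintype.piFinset_univ] at h2
    rw [h2]
    have h3 : ∀ i : Fin b, ∑ j : Fin s,
        Real.exp (lam * (if ((e (i, j) : X) : C) ∈ F a then (1 : ℝ) else 0)) ≤
        s * Real.exp ((lam + lam ^ 2) *
          ((∑ j : Fin s, (if ((e (i, j) : X) : C) ∈ F a then (1 : ℝ) else 0)) / s)) := by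
      intro i
      have h4 : ∀ j : Fin s, Real.exp (lam * (if ((e (i, j) : X) : C) ∈ F a then (1 : ℝ) else 0)) ≤
          1 + (lam + lam ^ 2) * (if ((e (i, j) : X) : C) ∈ F a then (1 : ℝ) else 0) := by
        intro j
        split_ifs with h
        · have := exp_quad hl0.le hl1
          simp only [mul_one]; linarith
        · simp
      calc ∑ j : Fin s, Real.exp (lam * (if ((e (i, j) : X) : C) ∈ F a then (1 : ℝ) else 0))
          ≤ ∑ j : Fin s, (1 + (lam + lam ^ 2) *
              (if ((e (i, j) : X) : C) ∈ F a then (1 : ℝ) else 0)) := Finset.sum_le_sum fun j _ => h4 j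
        _ = s * (1 + (lam + lam ^ 2) *
              ((∑ j : Fin s, (if ((e (i, j) : X) : C) ∈ F a then (1 : ℝ) else 0)) / s)) := by
            rw [Finset.sum_add_distrib, ← Finset.mul_sum]
            simp only [sum_const, card_univ, Fintype.card_fin, nsmul_eq_mul, mul_one]
            field_simp
        _ ≤ _ := by
            apply mul_le_mul_of_nonneg_left _ hs0.le
            have := Real.add_one_le_exp ((lam + lam ^ 2) *
              ((∑ j : Fin s, (if ((e (i, j) : X) : C) ∈ F a then (1 : ℝ) else 0)) / s))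
            linarith
    calc ∏ i : Fin b, ∑ j : Fin s,
          Real.exp (lam * (if ((e (i, j) : X) : C) ∈ F a then (1 : ℝ) else 0))
        ≤ ∏ i : Fin b, (s * Real.exp ((lam + lam ^ 2) *
          ((∑ j : Fin s, (if ((e (i, j) : X) : C) ∈ F a then (1 : ℝ) else 0)) / s))) := by
          apply Finset.prod_le_prod
          · intro i _
            exact Finset.sum_nonneg fun j _ => (Real.exp_pos _).le
          · intro i _; exact h3 i
      _ = (s : ℝ) ^ b * Real.exp ((lam + lam ^ 2) *
          ((∑ i : Fin b, ∑ j : Fin s, (if ((e (i, j) : X) : C) ∈ F a then (1 : ℝ) else 0)) / s)) := by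
          rw [Finset.prod_mul_distrib, ← Real.exp_sum]
          simp only [prod_const, card_univ, Fintype.card_fin]
          rw [← Finset.mul_sum, Finset.sum_div]
      _ ≤ _ := by
          apply mul_le_mul_of_nonneg_left _ (by positivity)
          apply Real.exp_le_exp.2
          apply mul_le_mul_of_nonneg_left _ (by positivity)
          simp only [mu]
          exact div_le_div_of_nonneg_right (hcount a) hs0.le
  -- the deviation
  have hmub : ∀ a, mu a ≤ b * (1 + 1 / s) := by
    intro a
    refine (hmu_le a).trans ?_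
    have h1 : ((X ∩ F a).card : ℝ) / X.card ≤ 1 := by
      rw [div_le_one hXpos]
      exact_mod_cast Finset.card_le_card Finset.inter_subset_left
    have h2 : (0 : ℝ) ≤ b * (1 + 1 / s) := by positivity
    nlinarith
  have hs2' : (1 : ℝ) / s ≤ δ / 2 := by
    rw [div_le_iff₀ hs0]
    rw [div_le_iff₀ hδ0] at hs
    linarith
  have hdev : ∀ a, ∑ g : Fin b → Fin s, Real.exp (lam * N g a - lam * (mu a + δ / 2 * b)) ≤
      (s : ℝ) ^ b * Real.exp (-(δ ^ 2 / 32 * b)) := by
    intro a
    have h1 : ∀ g : Fin b → Fin s, Real.exp (lam * N g a - lam * (mu a + δ / 2 * b)) =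
        Real.exp (lam * N g a) * Real.exp (-(lam * (mu a + δ / 2 * b))) := by
      intro g; rw [← Real.exp_add]; congr 1
    simp_rw [h1]
    rw [← Finset.sum_mul]
    calc (∑ g : Fin b → Fin s, Real.exp (lam * N g a)) * Real.exp (-(lam * (mu a + δ / 2 * b)))
        ≤ ((s : ℝ) ^ b * Real.exp ((lam + lam ^ 2) * mu a)) *
            Real.exp (-(lam * (mu a + δ / 2 * b))) :=
          mul_le_mul_of_nonneg_right (hmom a) (Real.exp_pos _).le
      _ = (s : ℝ) ^ b * Real.exp (lam ^ 2 * mu a - lam * (δ / 2 * b)) := by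
          rw [mul_assoc, ← Real.exp_add]; congr 2; ring
      _ ≤ _ := by
          apply mul_le_mul_of_nonneg_left _ (by positivity)
          apply Real.exp_le_exp.2
          have h3 := hmub a
          have h4 : mu a ≤ b * (3 / 2) := by
            refine h3.trans ?_
            apply mul_le_mul_of_nonneg_left _ hbR.le
            linarith
          have h5 : lam ^ 2 * mu a ≤ lam ^ 2 * (b * (3 / 2)) :=
            mul_le_mul_of_nonneg_left h4 (by positivity)
          have h6 : lam ^ 2 * (b * (3 / 2)) - lam * (δ / 2 * b) = -(δ ^ 2 / 32 * b) := by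
            rw [hlam]; ring
          linarith
  -- averaging
  have hsum : ∑ g : Fin b → Fin s, ∑ a ∈ S, Real.exp (lam * N g a - lam * (mu a + δ / 2 * b)) <
      ∑ _g : Fin b → Fin s, (1 : ℝ) := by
    rw [Finset.sum_comm]
    have hc : ∑ _g : Fin b → Fin s, (1 : ℝ) = (s : ℝ) ^ b := by
      simp [Finset.sum_const, Finset.card_univ]
    rw [hc]
    calc ∑ a ∈ S, ∑ g : Fin b → Fin s, Real.exp (lam * N g a - lam * (mu a + δ / 2 * b))
        ≤ ∑ _a ∈ S, (s : ℝ) ^ b * Real.exp (-(δ ^ 2 / 32 * b)) :=
          Finset.sum_le_sum fun a _ => hdev a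
      _ = (s : ℝ) ^ b * ((S.card : ℝ) * Real.exp (-(δ ^ 2 / 32 * b))) := by
          rw [Finset.sum_const, nsmul_eq_mul]; ring
      _ < (s : ℝ) ^ b * 1 := by
          apply mul_lt_mul_of_pos_left hN (by positivity)
      _ = (s : ℝ) ^ b := mul_one _
  obtain ⟨g, -, hg⟩ := Finset.exists_lt_of_sum_lt hsum
  have hinj : Function.Injective (fun i : Fin b => ((e (i, g i) : X) : C)) := by
    intro i j h
    have := e.injective (Subtype.ext h)
    exact (Prod.ext_iff.1 this).1
  refine ⟨univ.image (fun i : Fin b => ((e (i, g i) : X) : C)), ?_, ?_, ?_⟩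
  · intro c hc
    obtain ⟨i, -, rfl⟩ := Finset.mem_image.1 hc
    exact (e (i, g i)).2
  · rw [Finset.card_image_of_injective _ hinj]; simp
  · intro a ha
    have h1 : Real.exp (lam * N g a - lam * (mu a + δ / 2 * b)) < 1 :=
      lt_of_le_of_lt (Finset.single_le_sum
        (f := fun a => Real.exp (lam * N g a - lam * (mu a + δ / 2 * b)))
        (fun a _ => (Real.exp_pos _).le) ha) hg
    have h2 : lam * N g a - lam * (mu a + δ / 2 * b) < 0 := by
      rwa [← Real.exp_lt_one_iff] at *
    have h3 : N g a ≤ mu a + δ / 2 * b := by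
      by_contra hcon
      rw [not_le] at hcon
      have := mul_lt_mul_of_pos_left hcon hl0
      linarith
    have h4 : ((univ.image (fun i : Fin b => ((e (i, g i) : X) : C)) ∩ F a).card : ℝ) = N g a := by
      simp only [N]
      rw [Finset.sum_boole]
      have : univ.image (fun i : Fin b => ((e (i, g i) : X) : C)) ∩ F a =
          (univ.filter (fun i : Fin b => ((e (i, g i) : X) : C) ∈ F a)).image
            (fun i : Fin b => ((e (i, g i) : X) : C)) := by
        ext c
        simp only [mem_inter, mem_image, mem_univ, true_and, mem_filter]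
        constructor
        · rintro ⟨⟨i, rfl⟩, h⟩
          exact ⟨i, h, rfl⟩
        · rintro ⟨i, h, rfl⟩
          exact ⟨⟨i, rfl⟩, h⟩
      rw [this, Finset.card_image_of_injective _ hinj]
    rw [h4, div_le_iff₀ hbR]
    have h5 := hmu_le a
    have h6 : ((X ∩ F a).card : ℝ) / X.card ≤ 1 := by
      rw [div_le_one hXpos]
      exact_mod_cast Finset.card_le_card Finset.inter_subset_left
    have h7 : ((X ∩ F a).card : ℝ) / X.card * (b * (1 + 1 / s)) ≤
        ((X ∩ F a).card : ℝ) / X.card * b + δ / 2 * b := by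
      have h8 : (b : ℝ) * (1 + 1 / s) = b + 1 / s * b := by ring
      rw [h8, mul_add]
      have h9 : ((X ∩ F a).card : ℝ) / X.card * (1 / s * b) ≤ 1 * (δ / 2 * b) := by
        apply mul_le_mul h6 _ (by positivity) zero_le_one
        exact mul_le_mul_of_nonneg_right hs2' hbR.le
      linarith
    nlinarith

end Pool.Agent.Y117.SG
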