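import Pool.Agent.Y117.SG.Game
import Pool.Agent.Y117.SG.Ext
import Pool.Agent.Y117.SG.Samp

/-!
# Waiter hits many large sets
-/

set_option autoImplicit false

open Finset

namespace Pool.Agent.Y117.SG

variable {C A : Type*} [DecidableEq C]

/-- One round: a good batch. -/
theorem one_round (X : Finset C) (S : Finset A) (F : A → Finset C) (b : ℕ) (hb : 0 < b)
    (hSne : S.Nonempty) (γ K : ℝ) (hγ : 0 < γ) (hγ1 : γ ≤ 1) (N : ℕ) (hN : 1 ≤ N * (γ / 6))
    (hK : 4 / γ + 2 ≤ (γ / 2) ^ N * K)
    (hconc : (S.card : ℝ) * Real.exp (-((γ / 2) ^ 2 / 32 * b)) < 1)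
    (hpot : (∑ a ∈ S, Real.exp (-(((X ∩ F a).card : ℝ) / b))) * Real.exp (γ * (X.card / b)) <
      Real.exp (-K)) :
    ∃ B ⊆ X, B.card = b ∧ ∀ c ∈ B,
      (∑ a ∈ S with c ∉ F a, Real.exp (-((((X \ B) ∩ F a).card : ℝ) / b))) *
        Real.exp (γ * (((X \ B).card : ℝ) / b)) < Real.exp (-K) := by
  classical
  have hbR : (0 : ℝ) < b := by exact_mod_cast hb
  set W : A → ℝ := fun a => Real.exp (-(((X ∩ F a).card : ℝ) / b)) with hWdef
  have hWpos : ∀ a, 0 < W a := fun a => Real.exp_pos _
  have hK0 : 0 < K := by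
    have h1 : 0 < (γ / 2) ^ N * K := lt_of_lt_of_le (by positivity) hK
    exact (pos_iff_pos_of_mul_pos h1).1 (by positivity)
  -- every alive set is large
  have hbig : ∀ a ∈ S, K + γ * ((X.card : ℝ) / b) < ((X ∩ F a).card : ℝ) / b := by
    intro a ha
    have h1 : W a ≤ ∑ a ∈ S, W a :=
      Finset.single_le_sum (f := W) (fun a _ => (hWpos a).le) ha
    have h2 : W a * Real.exp (γ * (X.card / b)) < Real.exp (-K) :=
      lt_of_le_of_lt (mul_le_mul_of_nonneg_right h1 (Real.exp_pos _).le) hpot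
    rw [hWdef] at h2
    simp only at h2
    rw [← Real.exp_add, Real.exp_lt_exp] at h2
    linarith
  obtain ⟨a0, ha0⟩ := hSne
  have hXb : K < (X.card : ℝ) / b := by
    have h1 := hbig a0 ha0
    have h2 : ((X ∩ F a0).card : ℝ) / b ≤ (X.card : ℝ) / b := by
      apply div_le_div_of_nonneg_right _ hbR.le
      exact_mod_cast Finset.card_le_card Finset.inter_subset_left
    have h3 : 0 ≤ γ * ((X.card : ℝ) / b) := by positivity
    linarith
  have hXpos : (0 : ℝ) < X.card := by
    have : 0 < (X.card : ℝ) / b := hK0.trans hXb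
    by_contra hcon
    rw [not_lt] at hcon
    have h0 : (X.card : ℝ) = 0 := le_antisymm hcon (by positivity)
    rw [h0] at this
    simp at this
  have hXne : X.Nonempty := Finset.card_pos.1 (by exact_mod_cast hXpos)
  have hθ : ∀ a ∈ S, γ ≤ dens F X a := by
    intro a ha
    unfold dens
    rw [le_div_iff₀ hXpos]
    have h1 := hbig a ha
    have h2 : γ * ((X.card : ℝ) / b) < ((X ∩ F a).card : ℝ) / b := by linarith
    rw [← mul_div_assoc, div_lt_div_iff_of_pos_right hbR] at h2
    exact h2.le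
  have hWS : 0 < ∑ a ∈ S, W a := Finset.sum_pos (fun a _ => hWpos a) ⟨a0, ha0⟩
  obtain ⟨D, hDX, hDne, hDc, hDu⟩ := extremal X S F W (fun a _ => (hWpos a).le) hWS hXne γ hγ hθ N
    (γ / 6) (by positivity) hN
  have hDb : (4 / γ + 2) * b ≤ D.card := by
    have h1 : K * b ≤ X.card := by
      rw [lt_div_iff₀ hbR] at hXb
      exact hXb.le
    calc (4 / γ + 2) * b ≤ ((γ / 2) ^ N * K) * b := mul_le_mul_of_nonneg_right hK hbR.le
      _ = (γ / 2) ^ N * (K * b) := by ring
      _ ≤ (γ / 2) ^ N * X.card := mul_le_mul_of_nonneg_left h1 (by positivity)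
      _ ≤ D.card := hDc
  have h4γ : (4 : ℝ) ≤ 4 / γ := by
    rw [le_div_iff₀ hγ]; linarith
  have hb1 : (1 : ℝ) ≤ b := by exact_mod_cast hb
  have hD2 : 2 ≤ D.card := by
    have : (2 : ℝ) ≤ D.card := by nlinarith
    exact_mod_cast this
  have hs : 2 / (γ / 2) ≤ ((D.card / b : ℕ) : ℝ) := by
    have h1 : D.card < b * (D.card / b + 1) := by
      have := Nat.lt_mul_div_succ D.card hb
      simpa [mul_comm] using this
    have h2 : (D.card : ℝ) < b * (((D.card / b : ℕ) : ℝ) + 1) := by exact_mod_cast h1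
    have h3 : (4 / γ + 2) * b < (((D.card / b : ℕ) : ℝ) + 1) * b := by
      rw [mul_comm (((D.card / b : ℕ) : ℝ) + 1) (b : ℝ)]
      exact lt_of_le_of_lt hDb h2
    have h4 := lt_of_mul_lt_mul_right h3 hbR.le
    have h5 : 2 / (γ / 2) = 4 / γ := by field_simp; ring
    rw [h5]; linarith
  obtain ⟨B, hBD, hBc, hB⟩ := sample D S F b (D.card / b) hb (Nat.mul_div_le _ _)
    (by have := Nat.lt_mul_div_succ D.card hb
        exact (by simpa [mul_comm] using this.le)) (γ / 2) (by positivity) (by linarith) hs hconc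
  refine ⟨B, hBD.trans hDX, hBc, ?_⟩
  intro c hc
  have hBX := hBD.trans hDX
  have hcD := hBD hc
  have hu := hDu hD2 c hcD
  -- the weights after the round
  have hW' : ∀ a ∈ S, Real.exp (-((((X \ B) ∩ F a).card : ℝ) / b)) ≤
      Real.exp (γ / 2) * (W a * Real.exp (dens F D a)) := by
    intro a ha
    have h1 : (((X \ B) ∩ F a).card : ℝ) = ((X ∩ F a).card : ℝ) - ((B ∩ F a).card : ℝ) := by
      have h2 : (X \ B) ∩ F a = (X ∩ F a) \ (B ∩ F a) := by
        ext x
        simp only [mem_inter, mem_sdiff]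
        tauto
      rw [h2, Finset.card_sdiff_of_subset (Finset.inter_subset_inter_right hBX), Nat.cast_sub]
      exact Finset.card_le_card (Finset.inter_subset_inter_right hBX)
    rw [hWdef]
    simp only
    rw [← Real.exp_add, ← Real.exp_add]
    apply Real.exp_le_exp.2
    have h3 := hB a ha
    have h4 : ((D ∩ F a).card : ℝ) / D.card = dens F D a := rfl
    rw [h4] at h3
    rw [h1, sub_div]
    linarith
  have hsum : ∑ a ∈ S with c ∉ F a, Real.exp (-((((X \ B) ∩ F a).card : ℝ) / b)) ≤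
      Real.exp γ * ∑ a ∈ S, W a := by
    have e1 : ∑ a ∈ S with c ∉ F a, Real.exp (-((((X \ B) ∩ F a).card : ℝ) / b)) ≤
        ∑ a ∈ S with c ∉ F a, Real.exp (γ / 2) * (W a * Real.exp (dens F D a)) :=
      Finset.sum_le_sum fun a ha => hW' a (Finset.mem_filter.1 ha).1
    rw [← Finset.mul_sum] at e1
    have e2 : ∑ a ∈ S with c ∉ F a, W a * Real.exp (dens F D a) =
        ∑ a ∈ S, W a * Real.exp (dens F D a) -
          ∑ a ∈ S with c ∈ F a, W a * Real.exp (dens F D a) := by
      rw [← Finset.sum_filter_add_sum_filter_not S (fun a => c ∈ F a)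
        (fun a => W a * Real.exp (dens F D a))]
      ring
    have e3 : ∑ a ∈ S, W a * Real.exp (dens F D a) -
        (1 - γ / 6) * ∑ a ∈ S, W a * (dens F D a * Real.exp (dens F D a)) ≤
        (1 + γ / 2) * ∑ a ∈ S, W a := by
      rw [Finset.mul_sum, Finset.mul_sum, ← Finset.sum_sub_distrib]
      apply Finset.sum_le_sum
      intro a _
      have h1 := exp_conv (dens F D a)
      have h2 : dens F D a * Real.exp (dens F D a) ≤ 3 := by
        have h3 := dens_le_one F D a
        have h4 := dens_nonneg F D a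
        have h5 : Real.exp (dens F D a) ≤ Real.exp 1 := Real.exp_le_exp.2 h3
        have h6 := Real.exp_one_lt_d9
        have h7 := Real.exp_pos (dens F D a)
        nlinarith
      have h3 := hWpos a
      have h4 : Real.exp (dens F D a) - (1 - γ / 6) * (dens F D a * Real.exp (dens F D a)) ≤
          1 + γ / 2 := by nlinarith
      calc W a * Real.exp (dens F D a) -
            (1 - γ / 6) * (W a * (dens F D a * Real.exp (dens F D a)))
          = W a * (Real.exp (dens F D a) -
            (1 - γ / 6) * (dens F D a * Real.exp (dens F D a))) := by ring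
        _ ≤ W a * (1 + γ / 2) := mul_le_mul_of_nonneg_left h4 h3.le
        _ = (1 + γ / 2) * W a := mul_comm _ _
    calc ∑ a ∈ S with c ∉ F a, Real.exp (-((((X \ B) ∩ F a).card : ℝ) / b))
        ≤ Real.exp (γ / 2) * ∑ a ∈ S with c ∉ F a, W a * Real.exp (dens F D a) := e1
      _ ≤ Real.exp (γ / 2) * ((1 + γ / 2) * ∑ a ∈ S, W a) := by
          apply mul_le_mul_of_nonneg_left _ (Real.exp_pos _).le
          rw [e2]; linarith
      _ ≤ Real.exp (γ / 2) * (Real.exp (γ / 2) * ∑ a ∈ S, W a) := by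
          apply mul_le_mul_of_nonneg_left _ (Real.exp_pos _).le
          apply mul_le_mul_of_nonneg_right _ hWS.le
          have := Real.add_one_le_exp (γ / 2)
          linarith
      _ = Real.exp γ * ∑ a ∈ S, W a := by
          rw [← mul_assoc, ← Real.exp_add]; congr 2; ring
  have hcard : ((X \ B).card : ℝ) / b = (X.card : ℝ) / b - 1 := by
    rw [Finset.card_sdiff_of_subset hBX, hBc, Nat.cast_sub (by
      rw [← hBc]; exact Finset.card_le_card hBX)]
    field_simp
  rw [hcard]
  calc (∑ a ∈ S with c ∉ F a, Real.exp (-((((X \ B) ∩ F a).card : ℝ) / b))) *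
        Real.exp (γ * ((X.card : ℝ) / b - 1))
      ≤ (Real.exp γ * ∑ a ∈ S, W a) * Real.exp (γ * ((X.card : ℝ) / b - 1)) :=
        mul_le_mul_of_nonneg_right hsum (Real.exp_pos _).le
    _ = (∑ a ∈ S, W a) * Real.exp (γ * (X.card / b)) := by
        have : Real.exp (γ * ((X.card : ℝ) / b)) =
            Real.exp γ * Real.exp (γ * ((X.card : ℝ) / b - 1)) := by
          rw [← Real.exp_add]; congr 1; ring
        rw [this]; ring
    _ < _ := hpot

/-- Waiter can force Client to hit all the sets. -/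
theorem wc_abs (F : A → Finset C) (q : ℕ) (M : ℝ) (γ K : ℝ) (hγ : 0 < γ) (hγ1 : γ ≤ 1) (N : ℕ)
    (hN : 1 ≤ N * (γ / 6)) (hK : 4 / γ + 2 ≤ (γ / 2) ^ N * K)
    (hconc : M * Real.exp (-((γ / 2) ^ 2 / 32 * ((q + 1 : ℕ) : ℝ))) < 1)
    (goal : Finset C → Prop) (hmono : ∀ Y c, goal Y → goal (insert c Y))
    (hgoal : ∀ Y, (∀ a, ∃ c ∈ Y, c ∈ F a) → goal Y) :
    ∀ (m : ℕ) (X Y : Finset C) (S : Finset A), X.card ≤ m → (S.card : ℝ) ≤ M →
      (∀ a, a ∉ S → ∃ c ∈ Y, c ∈ F a) →
      (∑ a ∈ S, Real.exp (-(((X ∩ F a).card : ℝ) / ((q + 1 : ℕ) : ℝ)))) *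
        Real.exp (γ * (X.card / ((q + 1 : ℕ) : ℝ))) < Real.exp (-K) →
      Forces (offerWC q) goal X Y := by
  classical
  intro m
  induction m with
  | zero =>
    intro X Y S hX hS hSY hpot
    rcases S.eq_empty_or_nonempty with rfl | hne
    · exact any_play q goal hmono 0 X Y hX (hgoal Y fun a => hSY a (by simp))
    · exfalso
      obtain ⟨B, hB, hBc, -⟩ := one_round X S F (q + 1) (Nat.succ_pos q) hne γ K hγ hγ1 N hN hK
        (lt_of_le_of_lt (mul_le_mul_of_nonneg_right hS (Real.exp_pos _).le) hconc) hpot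
      have := Finset.card_le_card hB
      omega
  | succ m ih =>
    intro X Y S hX hS hSY hpot
    rcases S.eq_empty_or_nonempty with rfl | hne
    · exact any_play q goal hmono (m + 1) X Y hX (hgoal Y fun a => hSY a (by simp))
    · obtain ⟨B, hB, hBc, hround⟩ := one_round X S F (q + 1) (Nat.succ_pos q) hne γ K hγ hγ1 N hN hK
        (lt_of_le_of_lt (mul_le_mul_of_nonneg_right hS (Real.exp_pos _).le) hconc) hpot
      apply Forces.round X Y B ⟨hB, hBc⟩
      intro c hc
      apply ih (X \ B) (insert c Y) (S.filter (fun a => c ∉ F a))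
      · rw [Finset.card_sdiff_of_subset hB]; omega
      · refine le_trans ?_ hS
        exact_mod_cast Finset.card_le_card (Finset.filter_subset _ _)
      · intro a ha
        by_cases haS : a ∈ S
        · have : c ∈ F a := by
            by_contra hcon
            exact ha (Finset.mem_filter.2 ⟨haS, hcon⟩)
          exact ⟨c, Finset.mem_insert_self _ _, this⟩
        · obtain ⟨c', hc', h⟩ := hSY a haS
          exact ⟨c', Finset.mem_insert_of_mem hc', h⟩
      · exact hround c hc

end Pool.Agent.Y117.SG
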